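import Pool.Agent.Helper75.PX.Stmts

/-!
# A cubic element in a central division algebra of degree three (row I3 of the sheet PX)
-/

set_option autoImplicit false

universe u

open Module Polynomial

namespace Pool.Agent.Helper75.PX


theorem I3_deg (h1 : ST_MPD.{u}) (h2 : ST_MDV.{u}) (K D : Type u) [Field K] [DivisionRing D]
    [Algebra K D] [Algebra.IsCentral K D] [FiniteDimensional K D] (hd : finrank K D = 9) (x : D) :
    (minpoly K x).natDegree = 1 ∨ (minpoly K x).natDegree = 3 := by
  have hdv : (minpoly K x).natDegree ∣ 9 := hd ▸ h2 K D x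
  have hle : (minpoly K x).natDegree ≤ 3 := h1 K D 3 (by norm_num) (by rw [hd]; norm_num) x
  have hpos : 0 < (minpoly K x).natDegree := minpoly.natDegree_pos (Algebra.IsIntegral.isIntegral x)
  generalize (minpoly K x).natDegree = m at *
  interval_cases m <;> omega

theorem I3_one (K D : Type u) [Field K] [DivisionRing D]
    [Algebra K D] [FiniteDimensional K D] (x : D) (h : (minpoly K x).natDegree = 1) :
    x = algebraMap K D (-(minpoly K x).coeff 0) := by
  have h0 := minpoly.aeval K x
  have hm := (minpoly.monic (Algebra.IsIntegral.isIntegral (R := K) x)).coeff_natDegree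
  rw [h] at hm
  rw [aeval_eq_sum_range, h] at h0
  simp only [Finset.sum_range_succ, Finset.sum_range_zero, hm, pow_zero, pow_one, one_smul,
    zero_add] at h0
  rw [map_neg, Algebra.algebraMap_eq_smul_one]
  exact eq_neg_of_add_eq_zero_right h0

theorem st_I3 (h1 : ST_MPD.{u}) (h2 : ST_MDV.{u}) (h3 : ST_TRZ.{u}) (h4 : ST_TRM.{u})
    (h5 : ST_MIN.{u}) : ST_I3.{u} := by
  intro K D _ _ _ _ hd h3K
  have : FiniteDimensional K D := Module.finite_of_finrank_pos (by rw [hd]; norm_num)
  -- an element outside the field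
  obtain ⟨x, hx⟩ : ∃ x : D, ∀ k : K, x ≠ algebraMap K D k := by
    by_contra hcon
    push Not at hcon
    have : finrank K D ≤ 1 := by
      refine finrank_le_one (1 : D) fun w => ?_
      obtain ⟨k, hk⟩ := hcon w
      exact ⟨k, by rw [hk, Algebra.algebraMap_eq_smul_one]⟩
    omega
  have hx3 : (minpoly K x).natDegree = 3 := by
    rcases I3_deg h1 h2 K D hd x with h | h
    · exact absurd (I3_one K D x h) (hx _)
    · exact h
  obtain ⟨v, hv, ht1, ht2⟩ := h3 K D x (by omega) (by omega)
  have h9 : ((finrank K D : ℕ) : K) ≠ 0 := by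
    rw [hd]
    have : ((9 : ℕ) : K) = 3 * 3 := by norm_num
    rw [this]
    exact mul_ne_zero h3K h3K
  have hc1 := h4 K D v h9 ht1
  have hc2 := h4 K D v⁻¹ h9 ht2
  obtain ⟨hm1, hm2⟩ := h5 K D v hv
  rw [hm1] at hc2
  have hc3 := hm2 hc2
  have h0 := minpoly.aeval K v
  have hm := (minpoly.monic (Algebra.IsIntegral.isIntegral (R := K) v)).coeff_natDegree
  rcases I3_deg h1 h2 K D hd v with h | h
  · rw [h] at hc1
    have h6 := I3_one K D v h
    rw [show (1 - 1 : ℕ) = 0 from rfl] at hc1
    rw [hc1, neg_zero, map_zero] at h6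
    exact absurd h6 hv
  · rw [h] at hc1 hm
    rw [show (3 - 1 : ℕ) = 2 from rfl] at hc1
    rw [aeval_eq_sum_range, h] at h0
    simp only [Finset.sum_range_succ, Finset.sum_range_zero, hm, hc1, hc3, pow_zero, pow_one,
      one_smul, zero_smul, zero_add, add_zero] at h0
    refine ⟨v, -(minpoly K v).coeff 0, ?_, fun k hk => ?_⟩
    · rw [map_neg, Algebra.algebraMap_eq_smul_one]
      have : v * v * v = v ^ 3 := by
        rw [pow_succ, pow_two]
      rw [this]
      exact eq_neg_of_add_eq_zero_right h0
    · rw [hk, minpoly.eq_X_sub_C, natDegree_X_sub_C] at h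
      omega

end Pool.Agent.Helper75.PX
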